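import Pool.Agent.K3h88.Erde.Stm

/-!
# The three cycles in the triple product are disjoint and cover the product
-/

set_option autoImplicit false

namespace Pool.Agent.K3h92.Erde

open Pool.Agent.K3h88.Erde

section

variable {A B : ℕ}

lemma nz (M n : ℕ) (h0 : 0 < n) (h1 : n < M) : ((n : ℕ) : ZMod M) ≠ 0 := by
  rw [Ne, ZMod.natCast_eq_zero_iff]
  exact fun h => absurd (Nat.le_of_dvd h0 h) (by omega)

lemma hbig (hB : 4 ≤ B) (hAB : B ≤ A) : 4 * B ≤ A * B := Nat.mul_le_mul_right B (by omega)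

lemma sg_cases (A B : ℕ) (t : ZMod (A * B)) :
    (t.val % B = B - 1 ∧ sg A B t = t - ((B - 1 : ℕ) : ZMod (A * B))) ∨
    (t.val % B ≠ B - 1 ∧ sg A B t = t + ((B + 1 : ℕ) : ZMod (A * B))) := by
  unfold sg
  by_cases h : t.val % B = B - 1
  · left; exact ⟨h, if_pos h⟩
  · right; exact ⟨h, if_neg h⟩

lemma sg_sg_ne (hB : 4 ≤ B) (hAB : B ≤ A) (t : ZMod (A * B)) : sg A B (sg A B t) ≠ t := by
  have hb := hbig hB hAB
  intro h
  rcases sg_cases A B t with ⟨-, h1⟩ | ⟨-, h1⟩ <;>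
    rcases sg_cases A B (sg A B t) with ⟨-, h2⟩ | ⟨-, h2⟩ <;>
    rw [h2, h1] at h
  · apply nz (A * B) (2 * (B - 1)) (by omega) (by omega)
    push_cast
    linear_combination -h
  · apply nz (A * B) 2 (by omega) (by omega)
    rw [Nat.cast_sub (by omega : 1 ≤ B)] at h
    push_cast at h ⊢
    linear_combination h
  · apply nz (A * B) 2 (by omega) (by omega)
    rw [Nat.cast_sub (by omega : 1 ≤ B)] at h
    push_cast at h ⊢
    linear_combination h
  · apply nz (A * B) (2 * (B + 1)) (by omega) (by omega)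
    push_cast at h ⊢
    linear_combination h

lemma sg_ne_add_one (hB : 4 ≤ B) (hAB : B ≤ A) (t : ZMod (A * B)) : sg A B t ≠ t + 1 := by
  have hb := hbig hB hAB
  intro h
  rcases sg_cases A B t with ⟨-, h1⟩ | ⟨-, h1⟩ <;> rw [h1] at h
  · apply nz (A * B) B (by omega) (by omega)
    rw [Nat.cast_sub (by omega : 1 ≤ B)] at h
    push_cast at h ⊢
    linear_combination -h
  · apply nz (A * B) B (by omega) (by omega)
    push_cast at h ⊢
    linear_combination h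

lemma sg_add_one_ne (hB : 4 ≤ B) (hAB : B ≤ A) (t : ZMod (A * B)) : sg A B t + 1 ≠ t := by
  have hb := hbig hB hAB
  intro h
  rcases sg_cases A B t with ⟨-, h1⟩ | ⟨-, h1⟩ <;> rw [h1] at h
  · apply nz (A * B) (B - 2) (by omega) (by omega)
    rw [Nat.cast_sub (by omega : 1 ≤ B)] at h
    rw [Nat.cast_sub (by omega : 2 ≤ B)]
    push_cast at h ⊢
    linear_combination -h
  · apply nz (A * B) (B + 2) (by omega) (by omega)
    push_cast at h ⊢
    linear_combination h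

lemma one_ne (hB : 4 ≤ B) (w : ZMod B) : w + 1 ≠ w := by
  intro h
  apply nz B 1 (by omega) (by omega)
  push_cast
  linear_combination h

/-- uniqueness of the form (1) -/
lemma u1 (hB : 4 ≤ B) (hAB : B ≤ A) {t t' : ZMod (A * B)} {w w' : ZMod B}
    (h : s((t, w), (t + 1, w)) = s((t', w'), (t' + 1, w'))) : t = t' ∧ w = w' := by
  have hb := hbig hB hAB
  rw [Sym2.eq_iff] at h
  simp only [Prod.mk.injEq] at h
  rcases h with ⟨⟨h1, h2⟩, -⟩ | ⟨⟨h1, h2⟩, ⟨h3, -⟩⟩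
  · exact ⟨h1, h2⟩
  · exfalso
    apply nz (A * B) 2 (by omega) (by omega)
    push_cast
    linear_combination h3 - h1

lemma u3 (hB : 4 ≤ B) {t t' : ZMod (A * B)} {w w' : ZMod B}
    (h : s((t, w), (t, w + 1)) = s((t', w'), (t', w' + 1))) : t = t' ∧ w = w' := by
  rw [Sym2.eq_iff] at h
  simp only [Prod.mk.injEq] at h
  rcases h with ⟨⟨h1, h2⟩, -⟩ | ⟨⟨h1, h2⟩, ⟨-, h3⟩⟩
  · exact ⟨h1, h2⟩
  · exfalso
    apply nz B 2 (by omega) (by omega)
    push_cast
    linear_combination h3 - h2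

lemma u2 (hB : 4 ≤ B) (hAB : B ≤ A) {t t' : ZMod (A * B)} {w w' : ZMod B}
    (h : s((t, w), (sg A B t, w)) = s((t', w'), (sg A B t', w'))) : t = t' ∧ w = w' := by
  rw [Sym2.eq_iff] at h
  simp only [Prod.mk.injEq] at h
  rcases h with ⟨⟨h1, h2⟩, -⟩ | ⟨⟨h1, h2⟩, ⟨h3, -⟩⟩
  · exact ⟨h1, h2⟩
  · exfalso
    rw [h1] at h3
    exact sg_sg_ne hB hAB t' h3

lemma d12 (hB : 4 ≤ B) (hAB : B ≤ A) {t t' : ZMod (A * B)} {w w' : ZMod B}
    (h : s((t, w), (t + 1, w)) = s((t', w'), (sg A B t', w'))) : False := by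
  rw [Sym2.eq_iff] at h
  simp only [Prod.mk.injEq] at h
  rcases h with ⟨⟨h1, h2⟩, ⟨h3, -⟩⟩ | ⟨⟨h1, h2⟩, ⟨h3, -⟩⟩
  · rw [h1] at h3
    exact sg_ne_add_one hB hAB t' h3.symm
  · rw [h1] at h3
    exact sg_add_one_ne hB hAB t' h3

lemma d13 (hB : 4 ≤ B) {t t' x : ZMod (A * B)} {w w' : ZMod B}
    (h : s((t, w), (x, w)) = s((t', w'), (t', w' + 1))) : False := by
  rw [Sym2.eq_iff] at h
  simp only [Prod.mk.injEq] at h
  rcases h with ⟨⟨h1, h2⟩, ⟨-, h3⟩⟩ | ⟨⟨h1, h2⟩, ⟨-, h3⟩⟩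
  · exact one_ne hB w' (h3.symm.trans h2)
  · exact one_ne hB w' (h2.symm.trans h3)

lemma tc_val (hB : 4 ≤ B) (hAB : B ≤ A) (c : ℕ) (hc : c < B - 1) :
    (tc A B c).val = if c = 0 then B * (B - 2) else B * c - 1 := by
  have hBB : B * B ≤ A * B := Nat.mul_le_mul_right B hAB
  unfold tc
  split_ifs with h
  · rw [ZMod.val_natCast, Nat.mod_eq_of_lt]
    have : B * (B - 2) < B * B := Nat.mul_lt_mul_of_pos_left (by omega) (by omega)
    omega
  · rw [ZMod.val_natCast, Nat.mod_eq_of_lt]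
    have : B * c < B * B := Nat.mul_lt_mul_of_pos_left (by omega) (by omega)
    omega

lemma tc_not_sp (hB : 4 ≤ B) (hAB : B ≤ A) (c : ℕ) (hc : c < B - 1) :
    ¬ sp A B (tc A B c) (c : ZMod B) := by
  unfold sp
  rw [tc_val hB hAB c hc, ZMod.val_natCast, Nat.mod_eq_of_lt (by omega : c < B)]
  split_ifs with h
  · subst h
    rw [add_zero, Nat.mul_mod_right]
    omega
  · have h1 : B * c - 1 + c = (c - 1) + B * c := by
      have : 1 ≤ B * c := Nat.mul_pos (by omega) (by omega)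
      omega
    rw [h1, Nat.add_mul_mod_self_left, Nat.mod_eq_of_lt (by omega)]
    omega

lemma sg_tc (hB : 4 ≤ B) (hAB : B ≤ A) (c : ℕ) (hc : c < B - 1) :
    sg A B (tc A B c) = if c = 0 then ((B * (B - 1) + 1 : ℕ) : ZMod (A * B)) else
      ((B * (c - 1) : ℕ) : ZMod (A * B)) := by
  unfold sg
  rw [tc_val hB hAB c hc]
  by_cases h : c = 0
  · subst h
    simp only [if_true]
    rw [Nat.mul_mod_right, if_neg (by omega)]
    unfold tc
    rw [if_pos rfl, ← Nat.cast_add]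
    congr 1
    have : B * (B - 1) = B * (B - 2) + B := by
      rw [← Nat.mul_succ]; congr 1; omega
    omega
  · simp only [h, if_false]
    have h2 : B * c = B * (c - 1) + B := by rw [← Nat.mul_succ]; congr 1; omega
    have h1 : (B * c - 1) % B = B - 1 := by
      rw [show B * c - 1 = (B - 1) + B * (c - 1) by omega, Nat.add_mul_mod_self_left,
        Nat.mod_eq_of_lt (by omega)]
    rw [if_pos h1]
    unfold tc
    rw [if_neg h, ← Nat.cast_sub (by omega)]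
    congr 1
    omega

lemma sg_tc_not_sp (hB : 4 ≤ B) (hAB : B ≤ A) (c : ℕ) (hc : c < B - 1) :
    ¬ sp A B (sg A B (tc A B c)) (c : ZMod B) := by
  have hBB : B * B ≤ A * B := Nat.mul_le_mul_right B hAB
  unfold sp
  rw [sg_tc hB hAB c hc, ZMod.val_natCast (n := B), Nat.mod_eq_of_lt (by omega : c < B)]
  by_cases h : c = 0
  · subst h
    simp only [if_true]
    have h1 : B * (B - 1) + 1 < A * B := by
      have : B * (B - 1) + B = B * B := by
        rw [← Nat.mul_succ]; congr 1; omega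
      omega
    rw [ZMod.val_natCast, Nat.mod_eq_of_lt h1, add_zero, Nat.add_comm, Nat.add_mul_mod_self_left,
      Nat.mod_eq_of_lt (by omega)]
    omega
  · simp only [h, if_false]
    have h1 : B * (c - 1) < A * B := by
      have : B * (c - 1) < B * B := Nat.mul_lt_mul_of_pos_left (by omega) (by omega)
      omega
    rw [ZMod.val_natCast, Nat.mod_eq_of_lt h1, Nat.add_comm, Nat.add_mul_mod_self_left,
      Nat.mod_eq_of_lt (by omega)]
    omega

end

theorem t0d : StmT0D := by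
  intro A B hB hBA hA
  have hAB : B ≤ A := Nat.le_of_dvd hA hBA
  refine ⟨?_, ?_, ?_, ?_⟩
  · -- the union
    have key1 : ∀ (t : ZMod (A * B)) (w : ZMod B),
        s((t, w), (t + 1, w)) ∈ XE A B ∪ YE A B ∪ ZE A B := by
      intro t w
      left
      by_cases h : sp A B t w
      · right; left; exact ⟨t, w, h, rfl⟩
      · left; right; exact ⟨t, w, h, rfl⟩
    have key3 : ∀ (t : ZMod (A * B)) (w : ZMod B),
        s((t, w), (t, w + 1)) ∈ XE A B ∪ YE A B ∪ ZE A B := by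
      intro t w
      by_cases h : sp A B t w
      · left; left; left; exact ⟨t, w, h, rfl⟩
      · by_cases h' : ∃ c, c < B - 1 ∧ w = (c : ZMod B) ∧ (t = tc A B c ∨ t = sg A B (tc A B c))
        · right; right
          obtain ⟨c, hc, rfl, rfl | rfl⟩ := h'
          · exact ⟨c, hc, Or.inl rfl⟩
          · exact ⟨c, hc, Or.inr rfl⟩
        · left; right; right; left
          exact ⟨t, w, h, h', rfl⟩
    have key2 : ∀ (t : ZMod (A * B)) (w : ZMod B),
        s((t, w), (sg A B t, w)) ∈ XE A B ∪ YE A B ∪ ZE A B := by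
      intro t w
      by_cases h' : ∃ c, c < B - 1 ∧ t = tc A B c ∧ (w = (c : ZMod B) ∨ w = (c : ZMod B) + 1)
      · left; right; right; right
        obtain ⟨c, hc, rfl, rfl | rfl⟩ := h'
        · exact ⟨c, hc, Or.inl rfl⟩
        · exact ⟨c, hc, Or.inr rfl⟩
      · right; left; exact ⟨t, w, h', rfl⟩
    have box1 : ∀ (x x' : ZMod (A * B)) (w : ZMod B), s(x, x') ∈ cyE (A * B) ∪ sgE A B →
        s((x, w), (x', w)) ∈ boxE (cyE (A * B) ∪ sgE A B) (cyE B) := by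
      intro x x' w h
      left; exact ⟨x, x', w, h, rfl⟩
    have box3 : ∀ (t : ZMod (A * B)) (w : ZMod B),
        s((t, w), (t, w + 1)) ∈ boxE (cyE (A * B) ∪ sgE A B) (cyE B) := by
      intro t w
      right; exact ⟨t, w, w + 1, ⟨w, rfl⟩, rfl⟩
    have m1 : ∀ t : ZMod (A * B), s(t, t + 1) ∈ cyE (A * B) ∪ sgE A B := fun t => Or.inl ⟨t, rfl⟩
    have m2 : ∀ t : ZMod (A * B), s(t, sg A B t) ∈ cyE (A * B) ∪ sgE A B :=
      fun t => Or.inr ⟨t, rfl⟩
    ext e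
    constructor
    · rintro (⟨x, x', w, (⟨u, hu⟩ | ⟨u, hu⟩), rfl⟩ | ⟨x, y, y', ⟨u, hu⟩, rfl⟩)
      · rw [Sym2.eq_iff] at hu
        rcases hu with ⟨rfl, rfl⟩ | ⟨rfl, rfl⟩
        · exact key1 _ _
        · rw [Sym2.eq_swap]; exact key1 _ _
      · rw [Sym2.eq_iff] at hu
        rcases hu with ⟨rfl, rfl⟩ | ⟨rfl, rfl⟩
        · exact key2 _ _
        · rw [Sym2.eq_swap]; exact key2 _ _
      · rw [Sym2.eq_iff] at hu
        rcases hu with ⟨rfl, rfl⟩ | ⟨rfl, rfl⟩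
        · exact key3 _ _
        · rw [Sym2.eq_swap]; exact key3 _ _
    · rintro (((⟨t, w, -, rfl⟩ | ⟨t, w, -, rfl⟩) | (⟨t, w, -, rfl⟩ | ⟨t, w, -, -, rfl⟩ |
        ⟨c, -, (rfl | rfl)⟩)) | (⟨t, w, -, rfl⟩ | ⟨c, -, (rfl | rfl)⟩))
      · exact box3 _ _
      · exact box1 _ _ _ (m1 _)
      · exact box1 _ _ _ (m1 _)
      · exact box3 _ _
      · exact box1 _ _ _ (m2 _)
      · exact box1 _ _ _ (m2 _)
      · exact box1 _ _ _ (m2 _)
      · exact box3 _ _
      · exact box3 _ _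
  · -- X, Y
    rw [Set.disjoint_left]
    rintro e (⟨t, w, h, rfl⟩ | ⟨t, w, h, rfl⟩) hy
    · rcases hy with ⟨t', w', -, h'⟩ | ⟨t', w', hs, -, h'⟩ | ⟨c, -, h' | h'⟩
      · exact d13 hB h'.symm
      · obtain ⟨rfl, rfl⟩ := u3 hB h'
        exact hs h
      · exact d13 hB h'.symm
      · exact d13 hB h'.symm
    · rcases hy with ⟨t', w', hs, h'⟩ | ⟨t', w', hs, -, h'⟩ | ⟨c, -, h' | h'⟩
      · obtain ⟨rfl, rfl⟩ := u1 hB hAB h'
        exact h hs
      · exact d13 hB h'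
      · exact d12 hB hAB h'
      · exact d12 hB hAB h'
  · -- X, Z
    rw [Set.disjoint_left]
    rintro e (⟨t, w, h, rfl⟩ | ⟨t, w, h, rfl⟩) hz
    · rcases hz with ⟨t', w', -, h'⟩ | ⟨c, hc, h' | h'⟩
      · exact d13 hB h'.symm
      · obtain ⟨rfl, rfl⟩ := u3 hB h'
        exact tc_not_sp hB hAB c hc h
      · obtain ⟨rfl, rfl⟩ := u3 hB h'
        exact sg_tc_not_sp hB hAB c hc h
    · rcases hz with ⟨t', w', -, h'⟩ | ⟨c, hc, h' | h'⟩
      · exact d12 hB hAB h'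
      · exact d13 hB h'
      · exact d13 hB h'
  · -- Y, Z
    rw [Set.disjoint_left]
    rintro e (⟨t, w, h, rfl⟩ | ⟨t, w, h, hn, rfl⟩ | ⟨c, hc, (rfl | rfl)⟩) hz
    · rcases hz with ⟨t', w', -, h'⟩ | ⟨c, hc, h' | h'⟩
      · exact d12 hB hAB h'
      · exact d13 hB h'
      · exact d13 hB h'
    · rcases hz with ⟨t', w', -, h'⟩ | ⟨c, hc, h' | h'⟩
      · exact d13 hB h'.symm
      · obtain ⟨rfl, rfl⟩ := u3 hB h'
        exact hn ⟨c, hc, rfl, Or.inl rfl⟩
      · obtain ⟨rfl, rfl⟩ := u3 hB h'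
        exact hn ⟨c, hc, rfl, Or.inr rfl⟩
    · rcases hz with ⟨t', w', hn, h'⟩ | ⟨c', hc', h' | h'⟩
      · obtain ⟨rfl, rfl⟩ := u2 hB hAB h'
        exact hn ⟨c, hc, rfl, Or.inl rfl⟩
      · exact d13 hB h'
      · exact d13 hB h'
    · rcases hz with ⟨t', w', hn, h'⟩ | ⟨c', hc', h' | h'⟩
      · obtain ⟨rfl, rfl⟩ := u2 hB hAB h'
        exact hn ⟨c, hc, rfl, Or.inr rfl⟩
      · exact d13 hB h'
      · exact d13 hB h'

end Pool.Agent.K3h92.Erde
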