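import Pool.Agent.K3h88.Erde.Stm

/-!
# The first cycle in the triple product
-/

set_option autoImplicit false

namespace Pool.Agent.K3h92.Erde

open Pool.Agent.K3h88.Erde

/-- the first cycle -/
def cX (A B : ℕ) (t : ℕ) : ZMod (A * B) × ZMod B :=
  (((t - t / B : ℕ) : ZMod (A * B)), ((t / B : ℕ) : ZMod B))

lemma div_le' (B t : ℕ) : t / B ≤ t := Nat.div_le_self t B

lemma step1 {A B : ℕ} (hB : 4 ≤ B) (t : ℕ) (h : t % B ≠ B - 1) :
    cX A B (t + 1) = ((cX A B t).1 + 1, (cX A B t).2) := by
  have hB0 : 0 < B := by omega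
  have h1 : (t + 1) / B = t / B := by
    have h2 := Nat.div_add_mod t B
    have h3 := Nat.mod_lt t hB0
    rw [Nat.div_eq_of_lt_le]
    · rw [mul_comm]; omega
    · rw [add_mul, mul_comm]; omega
  unfold cX
  rw [h1]
  ext
  · simp only
    rw [show t + 1 - t / B = (t - t / B) + 1 by have := div_le' B t; omega]
    push_cast
    rfl
  · rfl

lemma step2 {A B : ℕ} (hB : 4 ≤ B) (t : ℕ) (h : t % B = B - 1) :
    cX A B (t + 1) = ((cX A B t).1, (cX A B t).2 + 1) := by
  have hB0 : 0 < B := by omega
  have h1 : (t + 1) / B = t / B + 1 := by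
    have h2 := Nat.div_add_mod t B
    rw [Nat.div_eq_of_lt_le]
    · rw [add_mul, mul_comm]; omega
    · rw [add_mul, add_mul, mul_comm]; omega
  unfold cX
  rw [h1]
  ext
  · simp only
    rw [show t + 1 - (t / B + 1) = t - t / B by omega]
  · simp only
    push_cast
    rfl

lemma sp_iff {A B : ℕ} (hB : 4 ≤ B) (hA : 0 < A) (t : ℕ) :
    sp A B (cX A B t).1 (cX A B t).2 ↔ t % B = B - 1 := by
  unfold sp cX
  simp only [ZMod.val_natCast]
  have h1 : ((t - t / B) % (A * B) + t / B % B) % B = t % B := by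
    rw [Nat.add_mod, Nat.mod_mod_of_dvd _ (Dvd.intro_left A rfl), Nat.mod_mod, ← Nat.add_mod]
    congr 1
    have := div_le' B t
    omega
  rw [h1]

theorem t0x : StmT0X := by
  intro A B hB hBA hA hco
  have hB0 : 0 < B := by omega
  have hAB : 0 < A * B := Nat.mul_pos hA hB0
  have hBle : B ≤ A := Nat.le_of_dvd hA hBA
  haveI : NeZero (A * B) := ⟨hAB.ne'⟩
  haveI : NeZero B := ⟨hB0.ne'⟩
  have hinj : Set.InjOn (cX A B) (Set.Iio (A * B * B)) := by
    intro t ht u hu htu
    simp only [Set.mem_Iio] at ht hu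
    have hmod : t % B = u % B := by
      have e1 : ((t - t / B) % (A * B) + t / B % B) % B = t % B := by
        rw [Nat.add_mod, Nat.mod_mod_of_dvd _ (Dvd.intro_left A rfl), Nat.mod_mod, ← Nat.add_mod]
        congr 1
        have := div_le' B t
        omega
      have e2 : ((u - u / B) % (A * B) + u / B % B) % B = u % B := by
        rw [Nat.add_mod, Nat.mod_mod_of_dvd _ (Dvd.intro_left A rfl), Nat.mod_mod, ← Nat.add_mod]
        congr 1
        have := div_le' B u
        omega
      have e3 : (t - t / B) % (A * B) = (u - u / B) % (A * B) := by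
        have := congrArg Prod.fst htu
        unfold cX at this
        simp only at this
        rwa [ZMod.natCast_eq_natCast_iff'] at this
      have e4 : (t / B) % B = (u / B) % B := by
        have := congrArg Prod.snd htu
        unfold cX at this
        simp only at this
        rwa [ZMod.natCast_eq_natCast_iff'] at this
      rw [← e1, ← e2, e3, e4]
    have e3 : ((t - t / B : ℕ) : ZMod (A * B)) = ((u - u / B : ℕ) : ZMod (A * B)) := by
      have := congrArg Prod.fst htu
      exact this
    have ht' := Nat.div_add_mod t B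
    have hu' := Nat.div_add_mod u B
    have f1 : t - t / B = (B - 1) * (t / B) + t % B := by
      have : (B - 1) * (t / B) = B * (t / B) - t / B := by rw [Nat.sub_mul, one_mul]
      rw [this]
      have h2 : t / B ≤ B * (t / B) := Nat.le_mul_of_pos_left _ hB0
      omega
    have f2 : u - u / B = (B - 1) * (u / B) + u % B := by
      have : (B - 1) * (u / B) = B * (u / B) - u / B := by rw [Nat.sub_mul, one_mul]
      rw [this]
      have h2 : u / B ≤ B * (u / B) := Nat.le_mul_of_pos_left _ hB0
      omega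
    rw [f1, f2, hmod] at e3
    push_cast at e3
    have e4 : ((B - 1 : ℕ) : ZMod (A * B)) * ((t / B : ℕ) : ZMod (A * B)) =
        ((B - 1 : ℕ) : ZMod (A * B)) * ((u / B : ℕ) : ZMod (A * B)) := by
      linear_combination e3
    have hcop : Nat.Coprime (B - 1) (A * B) := by
      apply Nat.Coprime.mul_right hco
      have : Nat.Coprime (B - 1) ((B - 1) + 1) := by simp
      rwa [Nat.sub_add_cancel (by omega : 1 ≤ B)] at this
    have hunit : IsUnit ((B - 1 : ℕ) : ZMod (A * B)) := (ZMod.isUnit_iff_coprime _ _).mpr hcop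
    have e5 := hunit.mul_left_cancel e4
    rw [ZMod.natCast_eq_natCast_iff'] at e5
    have g1 : t / B < A * B := Nat.div_lt_of_lt_mul (by rw [mul_comm]; exact ht)
    have g2 : u / B < A * B := Nat.div_lt_of_lt_mul (by rw [mul_comm]; exact hu)
    rw [Nat.mod_eq_of_lt g1, Nat.mod_eq_of_lt g2] at e5
    rw [← ht', ← hu', e5, hmod]
  have hsurj : ∀ v, ∃ j, j < A * B * B ∧ cX A B j = v := by
    have hb : Function.Bijective (fun j : Fin (A * B * B) => cX A B j.val) := by
      rw [Fintype.bijective_iff_injective_and_card]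
      refine ⟨fun i j hij => Fin.ext (hinj (Set.mem_Iio.mpr i.isLt) (Set.mem_Iio.mpr j.isLt) hij), ?_⟩
      simp only [Fintype.card_fin, Fintype.card_prod, ZMod.card]
    intro v
    obtain ⟨j, hj⟩ := hb.2 v
    exact ⟨j.val, j.isLt, hj⟩
  have hlast : cX A B (A * B * B) = cX A B 0 := by
    unfold cX
    have h1 : A * B * B / B = A * B := Nat.mul_div_cancel _ hB0
    rw [h1]
    ext
    · simp only [Nat.zero_div, Nat.sub_zero, Nat.cast_zero]
      rw [ZMod.natCast_eq_zero_iff]
      exact ⟨B - 1, by rw [Nat.mul_sub, mul_one]⟩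
    · simp only [Nat.zero_div, Nat.cast_zero]
      rw [ZMod.natCast_eq_zero_iff]
      exact Dvd.intro_left A rfl
  refine ⟨A * B * B, cX A B, ⟨?_, hlast, hinj⟩, hsurj, ?_⟩
  · calc 3 ≤ B := by omega
      _ ≤ A * B * B := Nat.le_mul_of_pos_left _ hAB
  · ext e
    constructor
    · rintro (⟨t, w, hsp, rfl⟩ | ⟨t, w, hsp, rfl⟩)
      · obtain ⟨j, hj, hc⟩ := hsurj (t, w)
        refine ⟨j, hj, ?_⟩
        have h1 : (cX A B j).1 = t := by rw [hc]
        have h2 : (cX A B j).2 = w := by rw [hc]
        rw [← h1, ← h2, sp_iff hB hA] at hsp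
        rw [step2 hB j hsp, hc]
      · obtain ⟨j, hj, hc⟩ := hsurj (t, w)
        refine ⟨j, hj, ?_⟩
        have h1 : (cX A B j).1 = t := by rw [hc]
        have h2 : (cX A B j).2 = w := by rw [hc]
        rw [← h1, ← h2, sp_iff hB hA] at hsp
        rw [step1 hB j hsp, hc]
    · rintro ⟨j, hj, rfl⟩
      by_cases h : j % B = B - 1
      · left
        refine ⟨(cX A B j).1, (cX A B j).2, (sp_iff hB hA j).mpr h, ?_⟩
        rw [step2 hB j h]
      · right
        refine ⟨(cX A B j).1, (cX A B j).2, fun hh => h ((sp_iff hB hA j).mp hh), ?_⟩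
        rw [step1 hB j h]

end Pool.Agent.K3h92.Erde
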