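import Pool.Agent.K3h88.Erde.Stm2

/-!
# Degrees of the colour classes
-/

set_option autoImplicit false

namespace Pool.Agent.K3h92.Erde

open Pool.Agent.K3h88.Erde
open Classical

section

variable {m a : ℕ} (G : GD m a) {L : ℕ}

/-- the colours of the darts at `z` -/
noncomputable def dcol (L s : ℕ) (z : Fin m → ZMod L) : Fin m ⊕ Fin m → (Fin a → ZMod 2)
  | Sum.inl l => G.T L s z l
  | Sum.inr l => G.T L s (z - ev m L l) l

lemma self_add' (x : Fin a → ZMod 2) : x + x = 0 := by
  ext i; exact CharTwo.add_self_eq_zero (x i)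

lemma add_cancel2 (x y : Fin a → ZMod 2) : x + (y + x) = y := by
  rw [add_comm y x, ← add_assoc, self_add', zero_add]

lemma add_cancel3 (x y : Fin a → ZMod 2) : x + (x + y) = y := by
  rw [← add_assoc, self_add', zero_add]

lemma neg_eq_self' (x : Fin a → ZMod 2) : -x = x := by
  rw [neg_eq_iff_add_eq_zero, self_add']

lemma chi_sub (hA : AlgProps G L) (z : Fin m → ZMod L) (l : ℕ) (hl : l < m) :
    G.chi L (z - ev m L l) = G.chi L z + G.c l := by
  have h := hA.chi_add (z - ev m L l) (ev m L l)
  rw [sub_add_cancel, hA.chi_ev l hl] at h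
  rw [h, add_assoc, self_add', add_zero]

lemma ev_ne {j : ℕ} (i : Fin m) (h : (i : ℕ) ≠ j) : ev m L j i = 0 := by
  unfold ev; rw [if_neg h]

lemma ev_eq {j : ℕ} (i : Fin m) (h : (i : ℕ) = j) : ev m L j i = 1 := by
  unfold ev; rw [if_pos h]

lemma A_sub (z : Fin m → ZMod L) (s j : ℕ) (h1 : s ≤ j) (h2 : j + 1 < m) :
    G.A L s (z - ev m L j) ↔ G.A L s z := by
  unfold GD.A
  have e1 : ∀ i : Fin m, (i : ℕ) = m - 1 → (z - ev m L j) i = z i := by
    intro i hi
    rw [Pi.sub_apply, ev_ne i (by omega), sub_zero]
  have e2 : ∀ i : Fin m, (i : ℕ) < s → (z - ev m L j) i = z i := by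
    intro i hi
    rw [Pi.sub_apply, ev_ne i (by omega), sub_zero]
  constructor
  · rintro ⟨ha, hb⟩
    refine ⟨fun i hi => ?_, fun i hi => ?_⟩
    · rw [← e1 i hi]; exact ha i hi
    · have := hb i hi
      rwa [e2 i hi] at this
  · rintro ⟨ha, hb⟩
    refine ⟨fun i hi => ?_, fun i hi => ?_⟩
    · rw [e1 i hi]; exact ha i hi
    · rw [e2 i hi]; exact hb i hi

lemma c_lt (l : ℕ) (h : l + 1 < m) : G.c l = Pi.single (G.κ l) 1 := by
  unfold GD.c
  rw [if_pos h, G.bstep l h, add_cancel3]

lemma c_lt' (l : ℕ) (h : l + 1 < m) : G.c l = G.b l + G.b (l + 1) := by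
  unfold GD.c
  rw [if_pos h]

lemma lam_succ (s : ℕ) (z : Fin m → ZMod L) (l : ℕ) :
    G.lam L (s + 1) z l =
      if G.A L s z then
        (if G.nx s + 1 < m then
          (if G.role L s z then (if l = s then G.nx s else if l = G.nx s then s else G.lam L s z l)
           else G.lam L s z l)
         else (if l = s then s + 1 else G.lam L s z l))
      else G.lam L s z l := rfl

lemma T_old (s : ℕ) (z : Fin m → ZMod L) (l : ℕ) (h1 : l ≠ s) (h2 : G.nx s + 1 < m → l ≠ G.nx s) :
    G.T L (s + 1) z l = G.T L s z l := by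
  unfold GD.T
  congr 2
  rw [lam_succ]
  by_cases h : G.nx s + 1 < m
  · simp [h, h1, h2 h]
  · simp [h, h1]

/-- one stage permutes the colours of the darts -/
lemma step_perm (hA : AlgProps G L) (hl : LamProps G L) (s : ℕ) (hs : s + 1 < m)
    (z : Fin m → ZMod L) :
    ∃ π : Equiv.Perm (Fin m ⊕ Fin m), ∀ d, dcol G L (s + 1) z d = dcol G L s z (π d) := by
  by_cases hS : G.nx s + 1 < m
  · -- `S`-type
    have hlt := G.nxlt s
    have hne : G.nx s ≠ s := by omega
    set S : Fin m := ⟨s, by omega⟩ with hSd
    set S' : Fin m := ⟨G.nx s, by omega⟩ with hSd'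
    have hSS : S ≠ S' := by
      intro h; rw [Fin.ext_iff] at h; simp only [hSd, hSd'] at h; omega
    have hc : G.c s = G.c (G.nx s) := by
      rw [c_lt G s (by omega), c_lt G (G.nx s) hS, G.nxk s hS]
    set P : (Fin m → ZMod L) → Prop := fun y => G.A L s y ∧ G.role L s y with hP
    have Ts : ∀ y, P y → G.T L (s + 1) y s = G.chi L y + G.b (G.nx s) := by
      rintro y ⟨h1, h2⟩
      unfold GD.T; rw [lam_succ]; simp [h1, h2, hS]
    have Ts' : ∀ y, P y → G.T L (s + 1) y (G.nx s) = G.chi L y + G.b s := by
      rintro y ⟨h1, h2⟩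
      unfold GD.T; rw [lam_succ]; simp [h1, h2, hS, hne]
    have Tn : ∀ y l, ¬ P y → G.T L (s + 1) y l = G.T L s y l := by
      intro y l h
      unfold GD.T; rw [lam_succ]
      by_cases h1 : G.A L s y
      · have h2 : ¬ G.role L s y := fun h2 => h ⟨h1, h2⟩
        simp [h1, h2, hS]
      · simp [h1]
    have To : ∀ y, P y → G.T L s y s = G.chi L y + G.b s := by
      rintro y ⟨h1, -⟩
      unfold GD.T; rw [hl.lam_s s y hs h1]
    have To' : ∀ y, P y → G.T L s y (G.nx s) = G.chi L y + G.b (G.nx s) := by
      rintro y ⟨h1, -⟩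
      unfold GD.T; rw [hl.lam_n s y hS h1]
    have chi1 := chi_sub G hA z s (by omega)
    have chi2 := chi_sub G hA z (G.nx s) (by omega)
    have hPP : P (z - ev m L s) ↔ P (z - ev m L (G.nx s)) := by
      simp only [hP, GD.role]
      rw [A_sub G z s s le_rfl (by omega), A_sub G z s (G.nx s) (by omega) hS, chi1, chi2, hc]
    refine ⟨Equiv.sumCongr (if P z then Equiv.swap S S' else 1)
      (if P (z - ev m L s) then Equiv.swap S S' else 1), ?_⟩
    rintro (l | l)
    · rw [Equiv.sumCongr_apply, Sum.map_inl]
      simp only [dcol]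
      by_cases hz : P z
      · rw [if_pos hz]
        by_cases h1 : l = S
        · subst h1
          rw [Equiv.swap_apply_left]
          exact (Ts z hz).trans (To' z hz).symm
        · by_cases h2 : l = S'
          · subst h2
            rw [Equiv.swap_apply_right]
            exact (Ts' z hz).trans (To z hz).symm
          · rw [Equiv.swap_apply_of_ne_of_ne h1 h2]
            apply T_old
            · intro h; apply h1; rw [Fin.ext_iff]; exact h
            · intro _ h; apply h2; rw [Fin.ext_iff]; exact h
      · rw [if_neg hz]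
        exact Tn z l hz
    · rw [Equiv.sumCongr_apply, Sum.map_inr]
      simp only [dcol]
      by_cases hz : P (z - ev m L s)
      · rw [if_pos hz]
        have hz' := hPP.mp hz
        by_cases h1 : l = S
        · subst h1
          rw [Equiv.swap_apply_left]
          refine (Ts _ hz).trans (Eq.trans ?_ (To' _ hz').symm)
          rw [chi1, chi2, hc]
        · by_cases h2 : l = S'
          · subst h2
            rw [Equiv.swap_apply_right]
            refine (Ts' _ hz').trans (Eq.trans ?_ (To _ hz).symm)
            rw [chi1, chi2, hc]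
          · rw [Equiv.swap_apply_of_ne_of_ne h1 h2]
            apply T_old
            · intro h; apply h1; rw [Fin.ext_iff]; exact h
            · intro _ h; apply h2; rw [Fin.ext_iff]; exact h
      · rw [if_neg hz]
        simp only [Equiv.Perm.coe_one, id_eq]
        by_cases h1 : l = S
        · subst h1
          exact Tn _ _ hz
        · by_cases h2 : l = S'
          · subst h2
            exact Tn _ _ (fun h => hz (hPP.mpr h))
          · apply T_old
            · intro h; apply h1; rw [Fin.ext_iff]; exact h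
            · intro _ h; apply h2; rw [Fin.ext_iff]; exact h
  · -- `h`-type
    set S : Fin m := ⟨s, by omega⟩ with hSd
    have chi1 := chi_sub G hA z s (by omega)
    have hA1 : G.A L s (z - ev m L s) ↔ G.A L s z := A_sub G z s s le_rfl (by omega)
    have Ts : ∀ y, G.A L s y → G.T L (s + 1) y s = G.chi L y + G.b (s + 1) := by
      intro y h1
      unfold GD.T; rw [lam_succ]; simp [h1, hS]
    have To : ∀ y, G.A L s y → G.T L s y s = G.chi L y + G.b s := by
      intro y h1
      unfold GD.T; rw [hl.lam_s s y hs h1]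
    have Tn : ∀ y l, ¬ G.A L s y → G.T L (s + 1) y l = G.T L s y l := by
      intro y l h
      unfold GD.T; rw [lam_succ]
      simp [h]
    by_cases hz : G.A L s z
    · have hz' := hA1.mpr hz
      refine ⟨Equiv.swap (Sum.inl S) (Sum.inr S), ?_⟩
      rintro (l | l)
      · by_cases h1 : l = S
        · subst h1
          rw [Equiv.swap_apply_left]
          simp only [dcol]
          refine (Ts z hz).trans (Eq.trans ?_ (To _ hz').symm)
          rw [chi1, c_lt' G s hs, add_assoc, add_comm (G.b s), add_assoc, self_add', add_zero]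
        · rw [Equiv.swap_apply_of_ne_of_ne (by simpa using h1) (by simp)]
          simp only [dcol]
          apply T_old
          · intro h; apply h1; rw [Fin.ext_iff]; exact h
          · intro h; exact absurd h hS
      · by_cases h1 : l = S
        · subst h1
          rw [Equiv.swap_apply_right]
          simp only [dcol]
          refine (Ts _ hz').trans (Eq.trans ?_ (To _ hz).symm)
          rw [chi1, c_lt' G s hs, add_assoc, add_assoc, self_add', add_zero]
        · rw [Equiv.swap_apply_of_ne_of_ne (by simp) (by simpa using h1)]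
          simp only [dcol]
          apply T_old
          · intro h; apply h1; rw [Fin.ext_iff]; exact h
          · intro h; exact absurd h hS
    · refine ⟨1, ?_⟩
      rintro (l | l)
      · exact Tn z l hz
      · simp only [dcol, Equiv.Perm.coe_one, id_eq]
        by_cases h1 : l = S
        · subst h1
          exact Tn _ _ (fun h => hz (hA1.mp h))
        · apply T_old
          · intro h; apply h1; rw [Fin.ext_iff]; exact h
          · intro h; exact absurd h hS

lemma all_perm (hA : AlgProps G L) (hl : LamProps G L) (s : ℕ) (hs : s + 1 ≤ m)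
    (z : Fin m → ZMod L) :
    ∃ π : Equiv.Perm (Fin m ⊕ Fin m), ∀ d, dcol G L s z d = dcol G L 0 z (π d) := by
  induction s with
  | zero => exact ⟨1, fun d => rfl⟩
  | succ s ih =>
    obtain ⟨π, hπ⟩ := ih (by omega)
    obtain ⟨ρ, hρ⟩ := step_perm G hA hl s (by omega) z
    exact ⟨π * ρ, fun d => by rw [hρ, hπ]; rfl⟩

lemma T_zero (z : Fin m → ZMod L) (l : ℕ) : G.T L 0 z l = G.chi L z + G.b l := rfl

lemma T_zero_in (hA : AlgProps G L) (z : Fin m → ZMod L) (l : ℕ) (h : l < m) :
    G.T L 0 (z - ev m L l) l = G.chi L z + G.b (if l + 1 < m then l + 1 else 0) := by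
  rw [T_zero, chi_sub G hA z l h]
  split_ifs with h1
  · rw [c_lt' G l h1, add_assoc, add_comm (G.b l), add_assoc, self_add', add_zero]
  · unfold GD.c
    rw [if_neg h1, add_assoc, self_add', G.b0]

lemma eq_iff_col (x y α : Fin a → ZMod 2) : x + y = α ↔ y = x + α := by
  constructor
  · rintro rfl; rw [add_cancel3]
  · rintro rfl; rw [add_cancel3]

/-- the neighbour along a dart -/
noncomputable def nbr (z : Fin m → ZMod L) : Fin m ⊕ Fin m → (Fin m → ZMod L)
  | Sum.inl l => z + ev m L l
  | Sum.inr l => z - ev m L l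

lemma nz' (M n : ℕ) (h0 : 0 < n) (h1 : n < M) : ((n : ℕ) : ZMod M) ≠ 0 := by
  rw [Ne, ZMod.natCast_eq_zero_iff]
  exact fun h => absurd (Nat.le_of_dvd h0 h) (by omega)

lemma one_ne0 (hL : 4 ≤ L) : (1 : ZMod L) ≠ 0 := by
  have := nz' L 1 (by omega) (by omega)
  rwa [Nat.cast_one] at this

lemma two_ne0 (hL : 4 ≤ L) : (1 : ZMod L) + 1 ≠ 0 := by
  have := nz' L 2 (by omega) (by omega)
  rwa [Nat.cast_two, ← one_add_one_eq_two] at this

lemma nbr_ne (hL : 4 ≤ L) (z : Fin m → ZMod L) (d : Fin m ⊕ Fin m) : nbr z d ≠ z := by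
  rcases d with l | l
  · intro h
    have := congrFun h l
    simp only [nbr, Pi.add_apply, ev_eq l rfl] at this
    exact one_ne0 hL (by linear_combination this)
  · intro h
    have := congrFun h l
    simp only [nbr, Pi.sub_apply, ev_eq l rfl] at this
    exact one_ne0 hL (by linear_combination -this)

lemma nbr_inj (hL : 4 ≤ L) (z : Fin m → ZMod L) : Function.Injective (nbr z) := by
  rintro (l | l) (k | k) h
  · by_cases hlk : l = k
    · rw [hlk]
    · exfalso
      have := congrFun h l
      simp only [nbr, Pi.add_apply, ev_eq l rfl,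
        ev_ne (L := L) l (fun h => hlk (Fin.ext h) : (l : ℕ) ≠ k)] at this
      exact one_ne0 hL (by linear_combination this)
  · exfalso
    have := congrFun h l
    by_cases hlk : l = k
    · subst hlk
      simp only [nbr, Pi.add_apply, Pi.sub_apply, ev_eq l rfl] at this
      exact two_ne0 hL (by linear_combination this)
    · simp only [nbr, Pi.add_apply, Pi.sub_apply, ev_eq l rfl,
        ev_ne (L := L) l (fun h => hlk (Fin.ext h) : (l : ℕ) ≠ k)] at this
      exact one_ne0 hL (by linear_combination this)
  · exfalso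
    have := congrFun h l
    by_cases hlk : l = k
    · subst hlk
      simp only [nbr, Pi.add_apply, Pi.sub_apply, ev_eq l rfl] at this
      exact two_ne0 hL (by linear_combination -this)
    · simp only [nbr, Pi.add_apply, Pi.sub_apply, ev_eq l rfl,
        ev_ne (L := L) l (fun h => hlk (Fin.ext h) : (l : ℕ) ≠ k)] at this
      exact one_ne0 hL (by linear_combination -this)
  · by_cases hlk : l = k
    · rw [hlk]
    · exfalso
      have := congrFun h l
      simp only [nbr, Pi.sub_apply, ev_eq l rfl,
        ev_ne (L := L) l (fun h => hlk (Fin.ext h) : (l : ℕ) ≠ k)] at this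
      exact one_ne0 hL (by linear_combination -this)

lemma nbhd (hL : 4 ≤ L) (s : ℕ) (α : Fin a → ZMod 2) (z : Fin m → ZMod L) :
    (G.gr L s α).neighborSet z = nbr z '' {d | dcol G L s z d = α} := by
  ext y
  rw [SimpleGraph.mem_neighborSet]
  unfold GD.gr
  rw [SimpleGraph.fromRel_adj]
  constructor
  · rintro ⟨-, ⟨l, hl, rfl, hT⟩ | ⟨l, hl, hz, hT⟩⟩
    · exact ⟨Sum.inl ⟨l, hl⟩, hT, rfl⟩
    · have hy : y = z - ev m L l := by rw [hz]; abel
      refine ⟨Sum.inr ⟨l, hl⟩, ?_, hy.symm⟩
      simp only [Set.mem_setOf_eq, dcol]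
      rw [← hy]; exact hT
  · rintro ⟨d, hd, rfl⟩
    refine ⟨(nbr_ne hL z d).symm, ?_⟩
    rcases d with l | l
    · left; exact ⟨l, l.isLt, rfl, hd⟩
    · right
      refine ⟨l, l.isLt, ?_, hd⟩
      simp only [nbr]; abel

lemma ncard_nbhd (hL : 4 ≤ L) (hA : AlgProps G L) (hl : LamProps G L) (s : ℕ) (hs : s + 1 ≤ m)
    (α : Fin a → ZMod 2) (z : Fin m → ZMod L) :
    ((G.gr L s α).neighborSet z).ncard = {d | dcol G L 0 z d = α}.ncard := by
  rw [nbhd G hL, Set.ncard_image_of_injective _ (nbr_inj hL z)]
  obtain ⟨π, hπ⟩ := all_perm G hA hl s hs z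
  have : {d | dcol G L 0 z d = α} = π '' {d | dcol G L s z d = α} := by
    ext d
    simp only [Set.mem_setOf_eq, Set.mem_image]
    constructor
    · intro h
      exact ⟨π.symm d, by rw [hπ, Equiv.apply_symm_apply]; exact h, Equiv.apply_symm_apply _ _⟩
    · rintro ⟨d', h, rfl⟩
      rw [← hπ]; exact h
  rw [this, Set.ncard_image_of_injective _ π.injective]

end

theorem col : StmCol := by
  intro m a G L hL h2L hA hl
  have hm := G.hm
  refine ⟨?_, ?_⟩
  · intro s α z hs hcov
    rw [ncard_nbhd G hL hA hl s hs]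
    obtain ⟨p, hp, hbp⟩ := hcov
    rw [Set.ncard_eq_two]
    refine ⟨Sum.inl ⟨p, hp⟩, Sum.inr ⟨if p = 0 then m - 1 else p - 1, by split_ifs <;> omega⟩,
      by simp, ?_⟩
    ext d
    simp only [Set.mem_setOf_eq, Set.mem_insert_iff, Set.mem_singleton_iff]
    rcases d with l | l
    · simp only [dcol, T_zero, eq_iff_col, ← hbp, Sum.inl.injEq, reduceCtorEq, or_false]
      constructor
      · intro h
        exact Fin.ext (G.binj l p l.isLt hp h)
      · rintro rfl; rfl
    · simp only [dcol, reduceCtorEq, false_or, Sum.inr.injEq]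
      rw [T_zero_in G hA z l l.isLt, eq_iff_col, ← hbp]
      constructor
      · intro h
        have h1 := G.binj _ p (by split_ifs <;> omega) hp h
        rw [Fin.ext_iff]
        have := l.isLt
        simp only
        split_ifs at h1 ⊢ <;> omega
      · intro h
        rw [Fin.ext_iff] at h
        simp only at h
        congr 1
        split_ifs at h ⊢ <;> omega
  · intro s α z hs hcov
    have h0 : {d | dcol G L 0 z d = α} = ∅ := by
      rw [Set.eq_empty_iff_forall_notMem]
      rintro (l | l) h
      · simp only [Set.mem_setOf_eq, dcol, T_zero, eq_iff_col] at h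
        exact hcov ⟨l, l.isLt, h⟩
      · simp only [Set.mem_setOf_eq, dcol] at h
        rw [T_zero_in G hA z l l.isLt, eq_iff_col] at h
        have := l.isLt
        exact hcov ⟨_, by split_ifs <;> omega, h⟩
    have h1 := ncard_nbhd G hL hA hl s hs α z
    rw [h0, Set.ncard_empty] at h1
    have hfin : ((G.gr L s α).neighborSet z).Finite := by
      rw [nbhd G hL]; exact (Set.toFinite _).image _
    exact (Set.ncard_eq_zero hfin).mp h1

end Pool.Agent.K3h92.Erde
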